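import Mathlib
import Pool.Agent.W48.KS.Defs

set_option autoImplicit false

namespace Pool.Agent.W72.KS.Strict

open Filter
open scoped Topology
open Pool.Agent.W259.GP Pool.Agent.W48.KS

/-- `x log x` -/
noncomputable def F (x : ℝ) : ℝ := x * Real.log x

/-- `gH`, extended -/
noncomputable def Gt (c : ℝ) : ℝ := F ((√(1 + 2 * c) + 1) / 2) - F ((√(1 + 2 * c) - 1) / 2)

theorem F_cont : Continuous F := Real.continuous_mul_log

theorem Gt_cont : Continuous Gt := by
  unfold Gt
  have h : Continuous fun c : ℝ => √(1 + 2 * c) := by fun_prop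
  exact (F_cont.comp ((h.add continuous_const).div_const 2)).sub
    (F_cont.comp ((h.sub continuous_const).div_const 2))

theorem gH_eq {c : ℝ} (hc : 0 ≤ c) : gH c = Gt c := by
  unfold gH Gt rr F
  have hn1 : 1 ≤ √(1 + 2 * c) := by
    rw [Real.one_le_sqrt]
    linarith
  set n := √(1 + 2 * c)
  rcases eq_or_lt_of_le hn1 with h | h
  · rw [← h]
    norm_num
  · have h1 : 1 - (n - 1) / (n + 1) = 2 / (n + 1) := by
      field_simp
      ring
    have h2 : (n - 1) / (n + 1) / (2 / (n + 1)) = (n - 1) / 2 := by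
      field_simp
    rw [h1, h2, Real.log_div (by norm_num) (by linarith), Real.log_div (by linarith) (by linarith),
      Real.log_div (by linarith) (by norm_num), Real.log_div (by linarith) (by norm_num)]
    ring

theorem Gt_zero : Gt 0 = 0 := by
  unfold Gt F
  simp

theorem Gt_diff {c : ℝ} (hc : 0 < c) : DifferentiableAt ℝ Gt c := by
  unfold Gt F
  have h0 : 1 + 2 * c ≠ 0 := by linarith
  have hn : 1 < √(1 + 2 * c) := by
    rw [show (1 : ℝ) = √1 by simp]
    apply Real.sqrt_lt_sqrt (by norm_num)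
    simpa using hc
  have hs : DifferentiableAt ℝ (fun c : ℝ => √(1 + 2 * c)) c := by
    have h3 : DifferentiableAt ℝ (fun c : ℝ => 1 + 2 * c) c := by fun_prop
    exact h3.sqrt h0
  have h1 : DifferentiableAt ℝ (fun c : ℝ => (√(1 + 2 * c) + 1) / 2) c :=
    (hs.add_const 1).div_const 2
  have h2 : DifferentiableAt ℝ (fun c : ℝ => (√(1 + 2 * c) - 1) / 2) c :=
    (hs.sub_const 1).div_const 2
  have e1 : (√(1 + 2 * c) + 1) / 2 ≠ 0 := by linarith
  have e2 : (√(1 + 2 * c) - 1) / 2 ≠ 0 := by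
    have : 0 < (√(1 + 2 * c) - 1) / 2 := by linarith
    exact this.ne'
  exact (h1.mul (h1.log e1)).sub (h2.mul (h2.log e2))

theorem Gt_lower {x : ℝ} (hx : 0 ≤ x) :
    -((√(1 + 2 * x) - 1) / 2 * Real.log ((√(1 + 2 * x) - 1) / 2)) ≤ Gt x := by
  unfold Gt F
  have hn1 : 1 ≤ √(1 + 2 * x) := by
    rw [Real.one_le_sqrt]
    linarith
  have h1 : 0 ≤ (√(1 + 2 * x) + 1) / 2 * Real.log ((√(1 + 2 * x) + 1) / 2) := by
    apply mul_nonneg (by linarith)
    apply Real.log_nonneg
    linarith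
  linarith

/-- the first mode -/
noncomputable def aa (k t : ℝ) : ℝ := k ^ 2 / (2 * ((1 - t) ^ 2 - k ^ 2))

theorem main : S_strict := by
  intro θ hθ0 hθ1
  have hsin : 0 < Real.sin θ := Real.sin_pos_of_pos_of_lt_pi hθ0 (by linarith [Real.pi_pos])
  have hcos : 0 < Real.cos θ := Real.cos_pos_of_mem_Ioo ⟨by linarith, hθ1⟩
  set k := Real.cos θ with hk
  have hsq : Real.sin θ ^ 2 = 1 - k ^ 2 := by
    rw [hk]
    linarith [Real.sin_sq_add_cos_sq θ]
  have hk2 : 0 < 1 - k ^ 2 := by
    rw [← hsq]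
    positivity
  have hk1 : k < 1 := by nlinarith
  have ha0 : aa k 0 = k ^ 2 / (2 * (1 - k ^ 2)) := by
    unfold aa
    norm_num
  have hc0 : 0 < aa k 0 := by
    rw [ha0]
    positivity
  -- the value at `t = 0`
  have hKL : Gt (aa k 0) = KL θ := by
    have h1 : √(1 + 2 * aa k 0) = 1 / Real.sin θ := by
      have h2 : 1 + 2 * aa k 0 = (1 / Real.sin θ) ^ 2 := by
        rw [ha0, div_pow, hsq]
        field_simp
        ring
      rw [h2, Real.sqrt_sq (by positivity)]
    unfold Gt F KL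
    rw [h1]
    have h3 : (1 / Real.sin θ + 1) / 2 = (1 + Real.sin θ) / (2 * Real.sin θ) := by
      field_simp
    have h4 : (1 / Real.sin θ - 1) / 2 = (1 - Real.sin θ) / (2 * Real.sin θ) := by
      field_simp
    rw [h3, h4]
  -- differentiability in `t`
  have had : DifferentiableAt ℝ (aa k) 0 := by
    unfold aa
    have h1 : DifferentiableAt ℝ (fun t : ℝ => 2 * ((1 - t) ^ 2 - k ^ 2)) 0 := by fun_prop
    exact (differentiableAt_const _).div h1 (by norm_num; linarith)
  have hφ : DifferentiableAt ℝ (fun t => Gt (aa k t)) 0 := (Gt_diff hc0).comp 0 had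
  have hacont : Tendsto (aa k) (𝓝[>] 0) (𝓝 (aa k 0)) :=
    (had.continuousAt.tendsto).mono_left nhdsWithin_le_nhds
  obtain ⟨C, hC⟩ : ∃ C : ℝ, ∀ᶠ t in 𝓝[>] (0 : ℝ), Gt (aa k t) - Gt (aa k 0) < C * t := by
    have h1 := hφ.hasDerivAt
    have h2 := h1.tendsto_slope_zero_right
    refine ⟨deriv (fun t => Gt (aa k t)) 0 + 1, ?_⟩
    have h3 := h2.eventually_lt_const (show deriv (fun t => Gt (aa k t)) 0 <
      deriv (fun t => Gt (aa k t)) 0 + 1 by linarith)
    filter_upwards [h3, self_mem_nhdsWithin] with t ht ht0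
    simp only [zero_add, smul_eq_mul] at ht
    have ht0' : (0 : ℝ) < t := ht0
    rw [inv_mul_lt_iff₀ ht0'] at ht
    linarith
  -- the other term
  have hy : Tendsto (fun t => (√(1 + 2 * (t * aa k t)) - 1) / 2 / t) (𝓝[>] 0)
      (𝓝 (aa k 0 / 2)) := by
    have h1 : Tendsto (fun t => aa k t / (√(1 + 2 * (t * aa k t)) + 1)) (𝓝[>] 0)
        (𝓝 (aa k 0 / (√(1 + 2 * (0 * aa k 0)) + 1))) := by
      apply Tendsto.div hacont _ (by positivity)
      apply Tendsto.add _ tendsto_const_nhds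
      apply (Real.continuous_sqrt.tendsto _).comp
      apply Tendsto.add tendsto_const_nhds
      apply Tendsto.const_mul
      apply Tendsto.mul _ hacont
      exact tendsto_id.mono_left nhdsWithin_le_nhds
    have h2 : aa k 0 / (√(1 + 2 * (0 * aa k 0)) + 1) = aa k 0 / 2 := by
      norm_num
    rw [h2] at h1
    refine h1.congr' ?_
    have hpos : ∀ᶠ t in 𝓝[>] (0 : ℝ), 0 < aa k t := hacont.eventually_const_lt hc0
    filter_upwards [hpos, self_mem_nhdsWithin] with t hat ht0
    have ht0' : (0 : ℝ) < t := ht0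
    have h3 : 0 ≤ 1 + 2 * (t * aa k t) := by positivity
    have h4 := Real.sq_sqrt h3
    have h5 : 0 < √(1 + 2 * (t * aa k t)) + 1 := by positivity
    rw [div_eq_iff h5.ne']
    rw [div_div, div_mul_eq_mul_div, eq_div_iff (by positivity)]
    linear_combination (-1 : ℝ) * h4
  have hpos : ∀ᶠ t in 𝓝[>] (0 : ℝ), 0 < aa k t := hacont.eventually_const_lt hc0
  have hy0 : Tendsto (fun t => (√(1 + 2 * (t * aa k t)) - 1) / 2) (𝓝[>] 0) (𝓝[>] 0) := by
    rw [tendsto_nhdsWithin_iff]
    constructor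
    · have h1 : Tendsto (fun t : ℝ => t * ((√(1 + 2 * (t * aa k t)) - 1) / 2 / t)) (𝓝[>] 0)
          (𝓝 (0 * (aa k 0 / 2))) :=
        Tendsto.mul (tendsto_id.mono_left nhdsWithin_le_nhds) hy
      rw [zero_mul] at h1
      refine h1.congr' ?_
      filter_upwards [self_mem_nhdsWithin] with t ht0
      have ht0' : (0 : ℝ) < t := ht0
      field_simp
    · filter_upwards [hpos, self_mem_nhdsWithin] with t hat ht0
      have ht0' : (0 : ℝ) < t := ht0
      have h3 : 1 < √(1 + 2 * (t * aa k t)) := by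
        rw [show (1 : ℝ) = √1 by simp]
        apply Real.sqrt_lt_sqrt (by norm_num)
        have : 0 < t * aa k t := by positivity
        simpa using this
      show 0 < (√(1 + 2 * (t * aa k t)) - 1) / 2
      linarith
  have hinf : Tendsto (fun t => (√(1 + 2 * (t * aa k t)) - 1) / 2 / t *
      (-Real.log ((√(1 + 2 * (t * aa k t)) - 1) / 2))) (𝓝[>] 0) atTop := by
    apply Tendsto.pos_mul_atTop (show 0 < aa k 0 / 2 by positivity) hy
    exact tendsto_neg_atBot_atTop.comp (Real.tendsto_log_nhdsGT_zero.comp hy0)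
  have hlt1 : ∀ᶠ t in 𝓝[>] (0 : ℝ), t < 1 - k := by
    have h1 : Tendsto (fun t : ℝ => t) (𝓝[>] 0) (𝓝 0) := tendsto_id.mono_left nhdsWithin_le_nhds
    exact h1.eventually_lt_const (by linarith)
  obtain ⟨t, ht0, htk, hat, htC, htinf⟩ := ((eventually_mem_nhdsWithin (s := Set.Ioi (0 : ℝ))).and
    (hlt1.and (hpos.and (hC.and (hinf.eventually_gt_atTop C))))).exists
  have ht0' : (0 : ℝ) < t := ht0
  have hta : 0 < t * aa k t := by positivity
  have hkey : Gt (aa k t) - Gt (t * aa k t) < Gt (aa k 0) := by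
    have h1 := Gt_lower hta.le
    have h2 : C * t < -((√(1 + 2 * (t * aa k t)) - 1) / 2 *
        Real.log ((√(1 + 2 * (t * aa k t)) - 1) / 2)) := by
      have h3 := mul_lt_mul_of_pos_right htinf ht0'
      calc C * t < _ := h3
        _ = _ := by field_simp
    linarith
  -- choice of `b`
  have hψ : Tendsto (fun b => Gt (aa k t) + Gt b - Gt (t * aa k t + (1 - t) * b)) (𝓝[>] 0)
      (𝓝 (Gt (aa k t) + Gt 0 - Gt (t * aa k t + (1 - t) * 0))) := by
    have h1 : Continuous (fun b => Gt (aa k t) + Gt b - Gt (t * aa k t + (1 - t) * b)) := by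
      have := Gt_cont
      fun_prop
    exact (h1.tendsto 0).mono_left nhdsWithin_le_nhds
  have hb := hψ.eventually_lt_const (show Gt (aa k t) + Gt 0 - Gt (t * aa k t + (1 - t) * 0) <
    Gt (aa k 0) by rw [Gt_zero, mul_zero, add_zero, add_zero]; exact hkey)
  obtain ⟨b, hb0, hb1⟩ := ((eventually_mem_nhdsWithin (s := Set.Ioi (0 : ℝ))).and hb).exists
  have hb0' : (0 : ℝ) < b := hb0
  have hphb : 0 < ph b := by
    unfold ph
    positivity
  have hpha : ph (aa k t) = k / (1 - t) := by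
    have h1t : 0 < 1 - t := by linarith
    have h2 : 0 < (1 - t) ^ 2 - k ^ 2 := by nlinarith
    unfold ph aa
    have h3 : 2 * (k ^ 2 / (2 * ((1 - t) ^ 2 - k ^ 2))) /
        (1 + 2 * (k ^ 2 / (2 * ((1 - t) ^ 2 - k ^ 2)))) = (k / (1 - t)) ^ 2 := by
      have h4 : 1 + 2 * (k ^ 2 / (2 * ((1 - t) ^ 2 - k ^ 2))) =
          (1 - t) ^ 2 / ((1 - t) ^ 2 - k ^ 2) := by
        field_simp
        ring
      rw [h4]
      field_simp
    rw [h3, Real.sqrt_sq (by positivity)]
  refine ⟨aa k t, b, 1 - t, hat, hb0', by linarith, by linarith, ?_, ?_⟩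
  · rw [hpha]
    have h1t : 0 < 1 - t := by linarith
    have h1 : (1 - t) * (k / (1 - t)) = k := by field_simp
    rw [h1]
    have : 0 < (1 - (1 - t)) * ph b := by
      apply mul_pos _ hphb
      linarith
    linarith
  · unfold tm
    rw [← hKL, gH_eq hat.le, gH_eq hb0'.le, gH_eq (by
      have h1 : 0 < (1 - (1 - t)) * aa k t := by
        apply mul_pos _ hat
        linarith
      have h2 : 0 < (1 - t) * b := mul_pos (by linarith) hb0'
      linarith)]
    rw [show (1 - (1 - t)) * aa k t + (1 - t) * b = t * aa k t + (1 - t) * b by ring]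
    exact hb1

end Pool.Agent.W72.KS.Strict
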